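import Mathlib

/-!
# MP_aa1485_co: skew forcing irredundance parameters on forests

For a forest all four parameters equal the dimension of the kernel of the adjacency matrix.
-/

namespace Pool.Agent.Results.MP_aa1485_co.ForestEquality

open Set SimpleGraph

variable {V : Type*}

/-- One round of skew forcing: every vertex that is the only white neighbour of some vertex turns
blue. -/
def forceStep (G : SimpleGraph V) (B : Set V) : Set V :=
  B ∪ {w | ∃ u, {x | G.Adj u x ∧ x ∉ B} = {w}}

/-- Skew forcing sets. -/
def IsForcing (G : SimpleGraph V) (S : Set V) : Prop :=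
  ⋃ n : ℕ, (forceStep G)^[n] S = univ

/-- Skew forts. -/
def SkewFort (G : SimpleGraph V) (F : Set V) : Prop :=
  F.Nonempty ∧ ∀ v, {w | G.Adj v w ∧ w ∈ F}.ncard ≠ 1

/-- `Z_-`Ir-sets: every element has a private skew fort. -/
def IsIr (G : SimpleGraph V) (S : Set V) : Prop :=
  ∀ u ∈ S, ∃ F, SkewFort G F ∧ F ∩ S = {u}

/-- The skew forcing number. -/
noncomputable def Zminus (G : SimpleGraph V) : ℕ :=
  sInf {k | ∃ S : Set V, IsForcing G S ∧ S.ncard = k}

/-- The upper skew forcing number. -/
noncomputable def upperZminus (G : SimpleGraph V) : ℕ :=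
  sSup {k | ∃ S : Set V, Minimal (IsForcing G) S ∧ S.ncard = k}

/-- The lower skew forcing irredundance number. -/
noncomputable def zir (G : SimpleGraph V) : ℕ :=
  sInf {k | ∃ S : Set V, Maximal (IsIr G) S ∧ S.ncard = k}

/-- The upper skew forcing irredundance number. -/
noncomputable def ZIR (G : SimpleGraph V) : ℕ :=
  sSup {k | ∃ S : Set V, Maximal (IsIr G) S ∧ S.ncard = k}

/-! ### Forcing sets and forts -/

theorem iterate_mono (G : SimpleGraph V) (S : Set V) :
    Monotone (fun t => (forceStep G)^[t] S) := by
  apply monotone_nat_of_le_succ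
  intro t
  rw [Function.iterate_succ_apply']
  exact subset_union_left

theorem disjoint_of_fort {G : SimpleGraph V} {S F : Set V} (hF : SkewFort G F)
    (h : Disjoint F S) (n : ℕ) : Disjoint F ((forceStep G)^[n] S) := by
  induction n with
  | zero => exact h
  | succ n ih =>
    rw [Function.iterate_succ_apply', Set.disjoint_left]
    rintro w hw (hw' | ⟨u, hu⟩)
    · exact Set.disjoint_left.1 ih hw hw'
    · have hsub : {x | G.Adj u x ∧ x ∈ F} ⊆ {w} := by
        rw [← hu]
        rintro x ⟨h1, h2⟩
        exact ⟨h1, Set.disjoint_left.1 ih h2⟩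
      have hmem : w ∈ {x | G.Adj u x ∧ x ∉ (forceStep G)^[n] S} := by rw [hu]; rfl
      have : {x | G.Adj u x ∧ x ∈ F} = {w} := by
        apply Set.Subset.antisymm hsub
        rintro x rfl
        exact ⟨hmem.1, hw⟩
      apply hF.2 u
      rw [this, ncard_singleton]

theorem isForcing_iff [Finite V] (G : SimpleGraph V) (S : Set V) :
    IsForcing G S ↔ ∀ F, SkewFort G F → (F ∩ S).Nonempty := by
  constructor
  · intro h F hF
    by_contra hcon
    have hd : Disjoint F S := by
      rw [Set.disjoint_iff_inter_eq_empty]; exact Set.not_nonempty_iff_eq_empty.1 hcon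
    obtain ⟨f, hf⟩ := hF.1
    have : f ∈ ⋃ n : ℕ, (forceStep G)^[n] S := by rw [h]; trivial
    obtain ⟨n, hn⟩ := mem_iUnion.1 this
    exact Set.disjoint_left.1 (disjoint_of_fort hF hd n) hf hn
  · intro h
    by_contra hcon
    have hne : ((⋃ n : ℕ, (forceStep G)^[n] S)ᶜ).Nonempty := by
      rw [Set.nonempty_compl]; exact hcon
    have hfort : SkewFort G (⋃ n : ℕ, (forceStep G)^[n] S)ᶜ := by
      refine ⟨hne, ?_⟩
      intro u hu
      obtain ⟨w, hw⟩ := ncard_eq_one.1 hu
      have hwm : w ∈ {x | G.Adj u x ∧ x ∈ (⋃ n : ℕ, (forceStep G)^[n] S)ᶜ} := by rw [hw]; rfl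
      -- all other neighbours are blue at a common time
      have hfin : {x | G.Adj u x ∧ x ≠ w}.Finite := toFinite _
      have hsub : {x | G.Adj u x ∧ x ≠ w} ⊆ ⋃ n : ℕ, (forceStep G)^[n] S := by
        rintro x ⟨h1, h2⟩
        by_contra h3
        have : x ∈ {x | G.Adj u x ∧ x ∈ (⋃ n : ℕ, (forceStep G)^[n] S)ᶜ} := ⟨h1, h3⟩
        rw [hw] at this
        exact h2 this
      obtain ⟨T, ⟨n, rfl⟩, hT⟩ := DirectedOn.exists_mem_subset_of_finite_of_subset_sUnion (α := V)
        (c := Set.range (fun t : ℕ => (forceStep G)^[t] S)) (Set.range_nonempty _)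
        (directedOn_range.2 (iterate_mono G S).directed_le) hfin (by rw [sUnion_range]; exact hsub)
      apply hwm.2
      rw [mem_iUnion]
      refine ⟨n + 1, ?_⟩
      rw [Function.iterate_succ_apply']
      right
      refine ⟨u, ?_⟩
      ext x
      constructor
      · rintro ⟨h1, h2⟩
        by_contra h3
        exact h2 (hT ⟨h1, h3⟩)
      · rintro rfl
        exact ⟨hwm.1, fun h => hwm.2 (mem_iUnion.2 ⟨n, h⟩)⟩
    obtain ⟨x, hx1, hx2⟩ := h _ hfort
    exact hx1 (mem_iUnion.2 ⟨0, hx2⟩)

/-- Minimal skew forcing sets are maximal `Z_-`Ir-sets. -/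
theorem minimal_forcing [Finite V] {G : SimpleGraph V} {S : Set V}
    (hS : Minimal (IsForcing G) S) : Maximal (IsIr G) S := by
  have hf := (isForcing_iff G S).1 hS.prop
  constructor
  · intro u hu
    have h1 : ¬ IsForcing G (S \ {u}) := by
      intro h
      have := hS.le_of_le h sdiff_subset hu
      exact this.2 rfl
    rw [isForcing_iff] at h1
    push Not at h1
    obtain ⟨F, hF, h2⟩ := h1
    refine ⟨F, hF, ?_⟩
    have h3 : F ∩ S ⊆ {u} := by
      rintro x ⟨hx1, hx2⟩
      by_contra hne
      have : x ∈ F ∩ (S \ {u}) := ⟨hx1, hx2, hne⟩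
      rw [h2] at this
      exact this
    obtain ⟨y, hy⟩ := hf F hF
    have := h3 hy
    rw [mem_singleton_iff] at this
    subst this
    exact Set.Subset.antisymm h3 (by rintro x rfl; exact hy)
  · intro T hT hST v hv
    by_contra hvS
    obtain ⟨F, hF, h2⟩ := hT v hv
    obtain ⟨y, hy1, hy2⟩ := hf F hF
    have : y ∈ F ∩ T := ⟨hy1, hST hy2⟩
    rw [h2, mem_singleton_iff] at this
    rw [this] at hy2
    exact hvS hy2

/-! ### Kernel vectors -/

section Kernel

variable [Fintype V]

open Classical in
/-- The adjacency operator over `ℚ`. -/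
noncomputable def adjOp (G : SimpleGraph V) : (V → ℚ) →ₗ[ℚ] (V → ℚ) :=
  Matrix.mulVecLin (G.adjMatrix ℚ)

open Classical in
theorem adjOp_apply (G : SimpleGraph V) (x : V → ℚ) (v : V) :
    adjOp G x v = ∑ w ∈ G.neighborFinset v, x w := by
  unfold adjOp
  rw [Matrix.mulVecLin_apply, adjMatrix_mulVec_apply]

/-- Supports of kernel vectors are skew forts. -/
theorem support_fort {G : SimpleGraph V} {x : V → ℚ} (hx : adjOp G x = 0) {u : V} (hu : x u ≠ 0) :
    SkewFort G {w | x w ≠ 0} := by
  classical
  refine ⟨⟨u, hu⟩, ?_⟩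
  intro v hv
  obtain ⟨w, hw⟩ := ncard_eq_one.1 hv
  have h1 : adjOp G x v = 0 := by rw [hx]; rfl
  rw [adjOp_apply] at h1
  have hwm : w ∈ {w | G.Adj v w ∧ w ∈ {w | x w ≠ 0}} := by rw [hw]; rfl
  rw [Finset.sum_eq_single w] at h1
  · exact hwm.2 h1
  · intro b hb hbw
    by_contra hne
    have : b ∈ {w | G.Adj v w ∧ w ∈ {w | x w ≠ 0}} := ⟨by simpa using hb, hne⟩
    rw [hw] at this
    exact hbw this
  · intro h
    exact absurd (by simpa using hwm.1) h

/-- In a forest, every skew fort `F` and `u ∈ F` admit a kernel vector supported in `F` that does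
not vanish at `u`. -/
theorem exists_kernel {G : SimpleGraph V} (hG : G.IsAcyclic) {F : Set V} (hF : SkewFort G F)
    {u : V} (hu : u ∈ F) : ∃ x : V → ℚ, adjOp G x = 0 ∧ (∀ w, w ∉ F → x w = 0) ∧ x u ≠ 0 := by
  classical
  by_contra hcon
  push Not at hcon
  -- restriction to `F`
  let D : (V → ℚ) →ₗ[ℚ] (V → ℚ) :=
    { toFun := fun x w => if w ∈ F then x w else 0
      map_add' := by intro x y; ext w; by_cases h : w ∈ F <;> simp [h]
      map_smul' := by intro c x; ext w; by_cases h : w ∈ F <;> simp [h] }
  let L : (V → ℚ) →ₗ[ℚ] (V → ℚ) := (adjOp G).comp D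
  let φ : Module.Dual ℚ (V → ℚ) := LinearMap.proj u
  have hφ : φ ∈ (LinearMap.ker L).dualAnnihilator := by
    rw [Submodule.mem_dualAnnihilator]
    intro x hx
    have h1 : adjOp G (D x) = 0 := hx
    have h2 := hcon (D x) h1 (fun w hw => by simp [D, hw])
    have h3 : D x u = x u := by simp [D, hu]
    rw [h3] at h2
    exact h2
  rw [← LinearMap.range_dualMap_eq_dualAnnihilator_ker] at hφ
  obtain ⟨g, hg⟩ := hφ
  let y : V → ℚ := fun v => g (Pi.single v 1)
  have hgy : ∀ h : V → ℚ, g h = ∑ v, h v * y v := by
    intro h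
    conv_lhs => rw [← Finset.univ_sum_single h]
    rw [map_sum]
    apply Finset.sum_congr rfl
    intro v _
    have : Pi.single v (h v) = h v • (Pi.single v 1 : V → ℚ) := by
      rw [← Pi.single_smul]; simp
    rw [this, map_smul, smul_eq_mul]
  have hy : ∀ w ∈ F, ∑ v ∈ G.neighborFinset w, y v = if w = u then 1 else 0 := by
    intro w hw
    have h1 : g (L (Pi.single w 1)) = φ (Pi.single w 1) := by
      rw [← hg]; rfl
    have h2 : D (Pi.single w 1) = Pi.single w 1 := by
      ext v
      by_cases hv : v = w
      · subst hv; simp [D, hw]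
      · simp [D, hv]
    have h3 : φ (Pi.single w 1) = if w = u then 1 else 0 := by
      show (Pi.single w (1 : ℚ) : V → ℚ) u = _
      by_cases h : w = u
      · subst h; simp
      · rw [Pi.single_eq_of_ne (Ne.symm h)]; simp [h]
    rw [← h3, ← h1]
    show _ = g (adjOp G (D (Pi.single w 1)))
    rw [h2, hgy]
    have h4 : ∀ v, adjOp G (Pi.single w 1) v = if G.Adj w v then 1 else 0 := by
      intro v
      rw [adjOp_apply]
      by_cases h : G.Adj w v
      · rw [Finset.sum_eq_single w]
        · simp [h]
        · intro b _ hb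
          rw [Pi.single_eq_of_ne hb]
        · intro h'
          exact absurd (by simpa using h.symm) h'
      · rw [Finset.sum_eq_zero]
        · simp [h]
        · intro b hb
          have hbw : b ≠ w := by
            rintro rfl
            apply h
            simpa using (G.symm.symm _ _ (by simpa using hb))
          rw [Pi.single_eq_of_ne hbw]
    have h5 : ∑ v, adjOp G (Pi.single w 1) v * y v = ∑ v, (if G.Adj w v then 1 else 0) * y v :=
      Finset.sum_congr rfl (fun v _ => by rw [h4])
    rw [h5]
    simp only [ite_mul, one_mul, zero_mul]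
    rw [← Finset.sum_filter]
    congr 1
    ext v
    simp
  -- build arbitrarily long paths
  have key : ∀ n : ℕ, ∃ (t : V) (p : G.Walk u t), p.IsPath ∧ p.length = n ∧
      (Even n → t ∈ F ∧ (n ≠ 0 → y p.penultimate ≠ 0)) ∧
      (¬ Even n → y t ≠ 0 ∧ p.penultimate ∈ F) := by
    intro n
    induction n with
    | zero => exact ⟨u, Walk.nil, by simp, rfl, fun _ => ⟨hu, fun h => absurd rfl h⟩, by simp⟩
    | succ n ih =>
      obtain ⟨t, p, hp, hpn, h1, h2⟩ := ih
      by_cases hn : Even n
      · obtain ⟨htF, hpen⟩ := h1 hn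
        -- find a new neighbour with `y ≠ 0`
        obtain ⟨v, hv1, hv2, hv3⟩ : ∃ v, G.Adj t v ∧ y v ≠ 0 ∧ v ∉ p.support := by
          by_cases hn0 : n = 0
          · subst hn0
            have htu : t = u := by
              have := Walk.eq_of_length_eq_zero hpn
              exact this.symm
            subst htu
            have hs := hy t hu
            rw [if_pos rfl] at hs
            by_contra hcon2
            push Not at hcon2
            rw [Finset.sum_eq_zero] at hs
            · exact zero_ne_one hs
            · intro v hv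
              by_contra hne
              have hadj : G.Adj t v := by simpa using hv
              have hmem := hcon2 v hadj hne
              have hp0 : p = Walk.nil := by
                cases p with
                | nil => rfl
                | cons h q => simp at hpn
              rw [hp0] at hmem
              simp at hmem
              exact hadj.ne hmem.symm
          · have hnil : ¬ p.Nil := by
              rw [← Walk.length_eq_zero_iff, hpn]; exact hn0
            have htu : t ≠ u := by
              rintro rfl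
              exact hnil (Walk.isPath_iff_nil.1 hp)
            have hs := hy t htF
            rw [if_neg htu] at hs
            by_contra hcon2
            push Not at hcon2
            rw [Finset.sum_eq_single p.penultimate] at hs
            · exact hpen hn0 hs
            · intro v hv hvp
              by_contra hne
              have hadj : G.Adj t v := by simpa using hv
              exact hvp (hG.eq_penultimate_of_adj_end hp hadj (hcon2 v hadj hne))
            · intro h
              exact absurd (by simpa using (p.adj_penultimate hnil).symm) h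
        refine ⟨v, p.concat hv1, hp.concat hv3 hv1, by rw [Walk.length_concat, hpn], ?_, ?_⟩
        · intro h
          exfalso
          rw [Nat.even_add_one] at h
          exact h hn
        · intro _
          rw [Walk.penultimate_concat]
          exact ⟨hv2, htF⟩
      · obtain ⟨hyt, hpen⟩ := h2 hn
        have hn0 : n ≠ 0 := by rintro rfl; exact hn (by simp)
        have hnil : ¬ p.Nil := by
          rw [← Walk.length_eq_zero_iff, hpn]; exact hn0
        obtain ⟨v, hv1, hv2, hv3⟩ : ∃ v, G.Adj t v ∧ v ∈ F ∧ v ∉ p.support := by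
          by_contra hcon2
          push Not at hcon2
          apply hF.2 t
          rw [ncard_eq_one]
          refine ⟨p.penultimate, ?_⟩
          ext v
          constructor
          · rintro ⟨h3, h4⟩
            exact hG.eq_penultimate_of_adj_end hp h3 (hcon2 v h3 h4)
          · rintro rfl
            exact ⟨(p.adj_penultimate hnil).symm, hpen⟩
        refine ⟨v, p.concat hv1, hp.concat hv3 hv1, by rw [Walk.length_concat, hpn], ?_, ?_⟩
        · intro _
          rw [Walk.penultimate_concat]
          exact ⟨hv2, fun _ => hyt⟩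
        · intro h
          exfalso
          apply h
          rw [Nat.even_add_one]
          exact hn
  obtain ⟨t, p, hp, hpn, -⟩ := key (Fintype.card V)
  have := hp.length_lt
  omega

/-- `Z_-`Ir-sets of a forest, in terms of kernel vectors. -/
theorem isIr_iff {G : SimpleGraph V} (hG : G.IsAcyclic) (S : Set V) :
    IsIr G S ↔ ∀ u ∈ S, ∃ x : V → ℚ, adjOp G x = 0 ∧ x u ≠ 0 ∧ ∀ w ∈ S, w ≠ u → x w = 0 := by
  constructor
  · intro h u hu
    obtain ⟨F, hF, h1⟩ := h u hu
    have huF : u ∈ F := by
      have : u ∈ F ∩ S := by rw [h1]; rfl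
      exact this.1
    obtain ⟨x, hx1, hx2, hx3⟩ := exists_kernel hG hF huF
    refine ⟨x, hx1, hx3, ?_⟩
    intro w hw hwu
    apply hx2
    intro hwF
    have : w ∈ F ∩ S := ⟨hwF, hw⟩
    rw [h1] at this
    exact hwu this
  · intro h u hu
    obtain ⟨x, hx1, hx2, hx3⟩ := h u hu
    refine ⟨{w | x w ≠ 0}, support_fort hx1 hx2, ?_⟩
    ext w
    constructor
    · rintro ⟨h1, h2⟩
      by_contra hne
      exact h1 (hx3 w h2 hne)
    · rintro rfl
      exact ⟨hx2, hu⟩

/-- All maximal `Z_-`Ir-sets of a forest have `dim ker A` elements. -/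
theorem maximal_card {G : SimpleGraph V} (hG : G.IsAcyclic) {S : Set V}
    (hS : Maximal (IsIr G) S) : S.ncard = Module.finrank ℚ (LinearMap.ker (adjOp G)) := by
  classical
  have h1 := (isIr_iff hG S).1 hS.prop
  let ρ : (LinearMap.ker (adjOp G)) →ₗ[ℚ] (↥S → ℚ) :=
    { toFun := fun x w => x.1 w.1
      map_add' := by intro x y; rfl
      map_smul' := by intro c x; rfl }
  have hinj : Function.Injective ρ := by
    rw [injective_iff_map_eq_zero]
    intro x hx
    have hxS : ∀ w ∈ S, x.1 w = 0 := fun w hw => congrFun hx ⟨w, hw⟩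
    by_contra hne
    have : ∃ v, x.1 v ≠ 0 := by
      by_contra hcon
      push Not at hcon
      exact hne (Subtype.ext (funext hcon))
    obtain ⟨v, hv⟩ := this
    have hvS : v ∉ S := fun h => hv (hxS v h)
    have hIr : IsIr G (insert v S) := by
      rw [isIr_iff hG]
      intro u hu
      by_cases huv : u = v
      · subst huv
        refine ⟨x.1, x.2, hv, ?_⟩
        rintro w (rfl | hw) hwu
        · exact absurd rfl hwu
        · exact hxS w hw
      · have huS : u ∈ S := hu.resolve_left huv
        obtain ⟨y, hy1, hy2, hy3⟩ := h1 u huS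
        refine ⟨y - (y v / x.1 v) • x.1, ?_, ?_, ?_⟩
        · have hx0 : adjOp G x.1 = 0 := x.2
          rw [map_sub, map_smul, hy1, hx0, smul_zero, sub_zero]
        · simp only [Pi.sub_apply, Pi.smul_apply, smul_eq_mul]
          rw [hxS u huS, mul_zero, sub_zero]; exact hy2
        · rintro w (rfl | hw) hwu
          · simp only [Pi.sub_apply, Pi.smul_apply, smul_eq_mul]
            rw [div_mul_cancel₀ _ hv, sub_self]
          · simp only [Pi.sub_apply, Pi.smul_apply, smul_eq_mul]
            rw [hxS w hw, mul_zero, sub_zero]; exact hy3 w hw hwu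
    have := hS.le_of_ge hIr (subset_insert _ _) (mem_insert v S)
    exact hvS this
  have hsurj : Function.Surjective ρ := by
    intro z
    choose! X hX using h1
    refine ⟨∑ u : ↥S, (z u / X u.1 u.1) • ⟨X u.1, (hX u.1 u.2).1⟩, ?_⟩
    ext w
    have e : (ρ (∑ u : ↥S, (z u / X u.1 u.1) • ⟨X u.1, (hX u.1 u.2).1⟩)) w =
        ∑ u : ↥S, (z u / X u.1 u.1) * X u.1 w.1 := by
      rw [map_sum, Finset.sum_apply]
      rfl
    rw [e, Finset.sum_eq_single w]
    · rw [div_mul_cancel₀ _ (hX w.1 w.2).2.1]
    · intro u _ huw
      rw [(hX u.1 u.2).2.2 w.1 w.2 (fun h => huw (Subtype.ext h.symm)), mul_zero]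
    · intro h; exact absurd (Finset.mem_univ _) h
  have h2 := (LinearEquiv.ofBijective ρ ⟨hinj, hsurj⟩).finrank_eq
  rw [h2, Module.finrank_fintype_fun_eq_card, ← Nat.card_eq_fintype_card]
  rfl

/-- **Full (positive) answer to Q1 of MP_aa1485_co.**  For every finite forest the four
parameters agree (with the dimension of the kernel of the adjacency matrix over `ℚ`). -/
theorem result (G : SimpleGraph V) (hG : G.IsAcyclic) :
    zir G = Zminus G ∧ Zminus G = upperZminus G ∧ upperZminus G = ZIR G := by
  classical
  set d := Module.finrank ℚ (LinearMap.ker (adjOp G)) with hd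
  -- existence of maximal sets
  obtain ⟨S, -, hS⟩ := Finite.exists_le_maximal (α := Set V) (p := IsIr G) (a := ∅)
    (by intro u hu; exact hu.elim)
  have hforc : IsForcing G (univ : Set V) := by
    rw [isForcing_iff]
    intro F hF
    rw [inter_univ]; exact hF.1
  obtain ⟨T, -, hT⟩ := Finite.exists_le_minimal (α := Set V) (p := IsForcing G) (a := univ) hforc
  have h1 : {k | ∃ S : Set V, Maximal (IsIr G) S ∧ S.ncard = k} = {d} := by
    ext k
    constructor
    · rintro ⟨S, hS, rfl⟩
      exact maximal_card hG hS
    · rintro rfl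
      exact ⟨S, hS, maximal_card hG hS⟩
  have h2 : {k | ∃ S : Set V, Minimal (IsForcing G) S ∧ S.ncard = k} = {d} := by
    ext k
    constructor
    · rintro ⟨S, hS, rfl⟩
      exact maximal_card hG (minimal_forcing hS)
    · rintro rfl
      exact ⟨T, hT, maximal_card hG (minimal_forcing hT)⟩
  have h3 : Zminus G = d := by
    unfold Zminus
    have hmem : d ∈ {k | ∃ S : Set V, IsForcing G S ∧ S.ncard = k} :=
      ⟨T, hT.prop, maximal_card hG (minimal_forcing hT)⟩
    apply le_antisymm
    · exact Nat.sInf_le hmem
    · apply le_csInf ⟨_, hmem⟩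
      rintro k ⟨U, hU, rfl⟩
      obtain ⟨U', hU', hmin⟩ := Finite.exists_le_minimal (α := Set V) (p := IsForcing G) hU
      rw [hd, ← maximal_card hG (minimal_forcing hmin)]
      exact ncard_le_ncard hU' (toFinite _)
  unfold zir upperZminus ZIR
  rw [h1, h2, h3, csInf_singleton, csSup_singleton]
  exact ⟨rfl, rfl, rfl⟩

end Kernel

end Pool.Agent.Results.MP_aa1485_co.ForestEquality
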